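import Pool.Agent.U837.GV.All
import Pool.Agent.U837.CC.Cr
import Pool.Agent.Results.MP_443e5f_co.AlmostAllVertices

/-!
# Goldbach graphs: all the vertices near the multiples of concatenated polynomial values belong to the bounded part

The subsets `X n` and `Y n` of the vertices of the finite Goldbach graph and of the finite near Goldbach graph contain all but
`n / log ^ U n` vertices and induce subgraphs with boundedly many components of bounded diameters. For almost all `t ≤ x`, for
ALL the bases `b ≤ log ^ W x`, ALL the lists `p_1, ..., p_r` of integer polynomials of distinct degrees between `1` and `D` with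
coefficients of absolute value at most `log ^ W x`, ALL the integers `q` within `log ^ W x` of the integer whose digits in base
`b` are those of `p_1(t), ..., p_r(t)` written one after the other, ALL the factors `h ≤ log ^ J x` and ALL the `n` with
`h q ≤ 2 n`, `n ≤ h q log ^ J₂ x`: the vertex `h q` belongs to `X n` and to `Y n`. For given bases and polynomials the
concatenations are a thin set: `x` integers of the size `x ^ (deg p_1 + ... + deg p_r)`.

`goldbach n` and `nearGoldbach n` are the graphs of the problem (starting file `AlmostAllVertices` of this problem).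

Method: the integers with a given number of digits in every block are the values `∑_i b ^ (e_i) p_i(t)` of a polynomial
with huge coefficients. New: an inverse theorem for Weyl sums with ALL the coefficients (`Pool.Agent.U837.CC.IWF_all`), applied
one block after the other, shows that the frequencies at which the exponential sum over the multiples of these values is large
are few, as few as possible up to powers of the logarithm (`Pool.Agent.U837.CC.count_vec`, `Pool.Agent.U837.CC.cc_tcls`), and the
values on `[x / 2, x]` fill their range up to constants (`Pool.Agent.U837.CC.one_cl`), which is needed for the prime pairs whose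
difference is of the size of the range; all the graphs at the same time (`Pool.Agent.U837.GV.v_vert`,
`Pool.Agent.U837.GV.cat_vert`). From the starting files: the graph `X n` for almost all vertices (`AlmostAllVertices`), the
vertices of large degree can be added to it (`Pool.Agent.N469.GG`), the circle method (`Pool.Agent.Y885.tl_tuples`,
`Pool.Agent.N625.PT.t_windows`); prime pairs at the scale of the differences are in the form of helper847
(`Pool.Agent.U847.PV.t_pair`).
-/

set_option autoImplicit false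

namespace Pool.Agent.Results.MP_443e5f_co.Concatenations

open Finset Polynomial
open Pool.Agent.Results.MP_443e5f_co.AlmostAllVertices (goldbach nearGoldbach)

/-- All the vertices of `G` with at most `n / (log n) ^ U` exceptions belong to `X`, the subgraph of `G` induced on `X` has at
most `C` connected components, any two vertices of the same component of this subgraph are at a distance of at most `C` in it,
and every vertex of `X` has at least `c n / (log n) ^ 2` neighbours in `X`. -/
def Bounded {V : Type} (G : SimpleGraph V) (X : Set V) (C : ℕ) (c : ℝ) (U n : ℕ) : Prop :=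
  (Xᶜ.ncard : ℝ) ≤ n / Real.log n ^ U ∧
    Nat.card (G.induce X).ConnectedComponent ≤ C ∧
    (∀ u v : X, (G.induce X).Reachable u v → (G.induce X).dist u v ≤ C) ∧
    ∀ u : X, c * (n / Real.log n ^ 2) ≤ (((G.induce X).neighborSet u).ncard : ℝ)

/-- `a` is a vertex of the Goldbach graph outside `X` or a vertex of the near Goldbach graph outside `Y`. -/
def Outside (n : ℕ) (X : Set {a : ℕ // Even a ∧ a ≤ 2 * n}) (Y : Set {a : ℕ // Even a ∧ 2 ≤ a ∧ a ≤ 2 * n}) (a : ℕ) : Prop :=
  (∃ h : Even a ∧ a ≤ 2 * n, (⟨a, h⟩ : {a : ℕ // Even a ∧ a ≤ 2 * n}) ∉ X) ∨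
    ∃ h : Even a ∧ 2 ≤ a ∧ a ≤ 2 * n, (⟨a, h⟩ : {a : ℕ // Even a ∧ 2 ≤ a ∧ a ≤ 2 * n}) ∉ Y

/-- The number whose digits in base `b`, read from the left to the right, are those of `p(t)`, `p ∈ F`, written one after
the other. -/
noncomputable def concat (b : ℕ) (F : List ℤ[X]) (t : ℕ) : ℕ :=
  Nat.ofDigits b ((F.reverse.map (fun p => Nat.digits b (p.eval (t : ℤ)).toNat)).flatten)

/-- The base `b` satisfies `2 ≤ b ≤ r`; the list `F` is not empty, and the members of `F` have distinct degrees between `1`
and `D`, coefficients of absolute value at most `r`, and nonnegative values at `t`. -/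
def Small (D : ℕ) (r : ℝ) (t b : ℕ) (F : List ℤ[X]) : Prop :=
  (2 ≤ b ∧ (b : ℝ) ≤ r) ∧ F ≠ [] ∧ (F.map natDegree).Nodup ∧
    ∀ p ∈ F, 1 ≤ p.natDegree ∧ p.natDegree ≤ D ∧ (∀ i, |((p.coeff i : ℤ) : ℝ)| ≤ r) ∧ 0 ≤ p.eval (t : ℤ)

open Classical in
/-- The number of the `1 ≤ t ≤ x` for which there are a base `b` and a list `F` with `Small D (log ^ W x) t b F`, an integer `q`
with `|q - concat b F t| ≤ log ^ W x`, a factor `1 ≤ h ≤ log ^ J x` and an `n` with `h q ≤ 2 n` and `n ≤ h q log ^ J₂ x` such that
`h q` is a vertex outside `X n` or outside `Y n`. -/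
noncomputable def exceptions (X : ∀ n : ℕ, Set {a : ℕ // Even a ∧ a ≤ 2 * n})
    (Y : ∀ n : ℕ, Set {a : ℕ // Even a ∧ 2 ≤ a ∧ a ≤ 2 * n}) (D W J J₂ x : ℕ) : ℕ :=
  ((Icc 1 x).filter fun t : ℕ => ∃ (b : ℕ) (F : List ℤ[X]), Small D (Real.log x ^ W) t b F ∧
    ∃ (q : ℤ) (h a n : ℕ), |(q : ℝ) - concat b F t| ≤ Real.log x ^ W ∧ 1 ≤ h ∧ (h : ℝ) ≤ Real.log x ^ J ∧ (a : ℤ) = h * q ∧
      a ≤ 2 * n ∧ (n : ℝ) ≤ Real.log x ^ J₂ * a ∧ Outside n (X n) (Y n) a).card

open Classical in
/-- **Concatenations as vertices of the Goldbach graphs.** There are absolute constants `C` and `c > 0` such that for every `U`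
there are sets `X n` of vertices of the finite Goldbach graph `G_n` and `Y n` of vertices of the finite near Goldbach graph
`G(n)` with the following properties.

(0) For all large `n`, all but at most `n / log ^ U n` vertices belong to `X n`, the subgraph induced on `X n` has at most `C`
components, all of diameter at most `C`, and all its degrees are at least `c n / log ^ 2 n`; and the same for `Y n`.

(1) Let `D`, `W`, `J`, `J₂` and `T` be fixed and let `x` be large. For all the integers `1 ≤ t ≤ x` with at most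
`x / log ^ T x` exceptions, for ALL the bases `b ≤ log ^ W x`, ALL the lists `F` of integer polynomials of distinct degrees
between `1` and `D`, with coefficients of absolute value at most `log ^ W x` and nonnegative values at `t`, ALL the integers `q`
at a distance of at most `log ^ W x` from the integer whose digits in base `b` are those of `p(t)`, `p ∈ F`, one after the
other, ALL the factors `1 ≤ h ≤ log ^ J x` and ALL the `n` with `h q ≤ 2 n` and `n ≤ h q log ^ J₂ x`: if `h q` is even then it
belongs to `X n` and to `Y n`. -/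
theorem result : ∃ (C : ℕ) (c : ℝ), 0 < c ∧ ∀ U : ℕ, ∃ (X : ∀ n : ℕ, Set {a : ℕ // Even a ∧ a ≤ 2 * n})
    (Y : ∀ n : ℕ, Set {a : ℕ // Even a ∧ 2 ≤ a ∧ a ≤ 2 * n}),
    (∃ n₀ : ℕ, ∀ n : ℕ, n₀ ≤ n → Bounded (goldbach n) (X n) C c U n ∧ Bounded (nearGoldbach n) (Y n) C c U n) ∧
    ∀ D W J J₂ T : ℕ, ∃ x₀ : ℕ, ∀ x : ℕ, x₀ ≤ x → (exceptions X Y D W J J₂ x : ℝ) ≤ x / Real.log x ^ T := by
  obtain ⟨C, c, hc, hall⟩ := Pool.Agent.Results.MP_443e5f_co.AlmostAllVertices.result
  obtain ⟨c₁, hc₁, n₁, hdeg⟩ := Pool.Agent.U837.GV.deg2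
  refine ⟨C * (C + 3) + C, min c (c₁ / 2), lt_min hc (by positivity), fun U => ?_⟩
  obtain ⟨n₂, h2⟩ := hall (U + 3)
  obtain ⟨n₃, h3⟩ := Pool.Agent.H373R2.T7.ev_L' (2 / c₁ + 1)
  have hex : ∀ n : ℕ, ∃ (X : Set {a : ℕ // Even a ∧ a ≤ 2 * n}) (Y : Set {a : ℕ // Even a ∧ 2 ≤ a ∧ a ≤ 2 * n}),
      (n₁ + n₂ + n₃ + 2 ≤ n → Bounded (goldbach n) X (C * (C + 3) + C) (min c (c₁ / 2)) U n ∧
        Bounded (nearGoldbach n) Y (C * (C + 3) + C) (min c (c₁ / 2)) U n) ∧
        (∀ a, c₁ * (n / Real.log n ^ 2) ≤ (((goldbach n).neighborSet a).ncard : ℝ) → a ∈ X) ∧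
        (∀ a, c₁ * (n / Real.log n ^ 2) ≤ (((nearGoldbach n).neighborSet a).ncard : ℝ) → a ∈ Y) := by
    intro n
    by_cases hn : n₁ + n₂ + n₃ + 2 ≤ n
    · obtain ⟨q1, q2⟩ := h2 n (by omega)
      have a3 := h3 n (by omega)
      have hn0 : (0 : ℝ) < n := by exact_mod_cast (by omega : 0 < n)
      have hL1 : 1 ≤ Real.log (n : ℝ) := by
        have : 0 < 2 / c₁ := by positivity
        linarith
      have hL0 : 0 < Real.log (n : ℝ) := by linarith
      have hpos : 0 < (n : ℝ) / Real.log n ^ 2 := by positivity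
      have hlarge : (n : ℝ) / Real.log n ^ (U + 3) ≤ c₁ / 2 * (n / Real.log n ^ 2) := by
        have e1 : (n : ℝ) / Real.log n ^ (U + 3) = (1 / Real.log n ^ (U + 1)) * (n / Real.log n ^ 2) := by
          rw [show U + 3 = (U + 1) + 2 by ring, pow_add _ (U + 1) 2]
          field_simp
        rw [e1]
        apply mul_le_mul_of_nonneg_right _ hpos.le
        rw [div_le_iff₀ (by positivity)]
        have e2 : Real.log (n : ℝ) ≤ Real.log n ^ (U + 1) := le_self_pow₀ hL1 (by omega)
        have e3 : 2 / c₁ ≤ Real.log (n : ℝ) := by linarith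
        rw [div_le_iff₀ hc₁] at e3
        nlinarith
      obtain ⟨X, ⟨x1, x2, x3, x4⟩, x5⟩ := Pool.Agent.N469.GG.absorb (goldbach n) C c c₁ (U + 3) n q1 hc₁ hpos hlarge
      obtain ⟨Y, ⟨y1, y2, y3, y4⟩, y5⟩ := Pool.Agent.N469.GG.absorb (nearGoldbach n) C c c₁ (U + 3) n q2 hc₁ hpos hlarge
      have hU : (n : ℝ) / Real.log n ^ (U + 3) ≤ n / Real.log n ^ U :=
        div_le_div_of_nonneg_left hn0.le (by positivity) (pow_le_pow_right₀ hL1 (by omega))
      exact ⟨X, Y, fun _ => ⟨⟨x1.trans hU, x2, x3, x4⟩, ⟨y1.trans hU, y2, y3, y4⟩⟩, x5, y5⟩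
    · exact ⟨Set.univ, Set.univ, fun h => absurd h hn, fun a _ => Set.mem_univ a, fun a _ => Set.mem_univ a⟩
  choose X Y hXY using hex
  refine ⟨X, Y, ⟨n₁ + n₂ + n₃ + 2, fun n hn => (hXY n).1 hn⟩, ?_⟩
  intro D W J J₂ T
  obtain ⟨x₁, h1⟩ := Pool.Agent.U837.GV.cat_vert D W J J₂ T c₁ hc₁ n₁ hdeg
  refine ⟨x₁, fun x hx => ?_⟩
  refine h1 x hx _ (filter_subset _ _) ?_
  intro t ht
  obtain ⟨b, F, ⟨⟨g1, g2⟩, g3⟩, q, h, a, n, e1, e2, e3, e4, e5, e6, hout⟩ := (mem_filter.1 ht).2
  refine ⟨b, F.reverse, g1, g2, Pool.Agent.U837.CC.adm_rev g3, q, h, n, a, e1, e2, e3, e4, ?_⟩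
  obtain ⟨hX, hY⟩ := (hXY n).2
  rcases hout with ⟨h, ha⟩ | ⟨h, ha⟩
  · refine ⟨h.1, h.2, e6, ?_⟩
    by_contra hcon
    push Not at hcon
    refine ha (hX _ (hcon.trans ?_))
    exact_mod_cast Pool.Agent.N469.GG.nb_gold n a h
  · refine ⟨h.1, h.2.2, e6, ?_⟩
    by_contra hcon
    push Not at hcon
    refine ha (hY _ (hcon.trans ?_))
    exact_mod_cast Pool.Agent.N469.GG.nb_near n a h

end Pool.Agent.Results.MP_443e5f_co.Concatenations
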