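import Pool.Agent.N469.GG.Deg
import Pool.Agent.U710.LE.T
import Pool.Agent.N625.DY.I
import Pool.Agent.Results.MP_443e5f_co.AlmostAllVertices

/-!
# The Goldbach graphs: the vertices near almost all the values of functions which grow faster than any power are in the
bounded part

Definitions used, from the starting file `Pool.Agent.Results.MP_443e5f_co.AlmostAllVertices`: the finite Goldbach graph
`goldbach n` on `{0, 2, 4, …, 2 n}` and the finite near Goldbach graph `nearGoldbach n` on `{2, 4, …, 2 n}`.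

The starting file shows that after the removal of at most `n / log ^ U n` vertices there are at most `C` components, all of
diameter at most `C`. The vertices of large degree are added to the bounded part as in helper469's file `SmoothVertices`; the
new part is that almost all the vertices in very thin families (the neighbours of the values of functions which grow faster than
any power) have a large degree. The degree is the number of the representations of the vertex as a sum or as a difference of two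
primes. Method (`Pool.Agent.U710.LE`): the mean value theorem of Vinogradov for a degree which tends to infinity.
-/

set_option autoImplicit false

namespace Pool.Agent.Results.MP_443e5f_co.SubexponentialVertices

open Finset Filter
open Pool.Agent.Results.MP_443e5f_co.AlmostAllVertices (goldbach nearGoldbach)

/-- All the vertices of `G` with at most `n / (log n) ^ U` exceptions belong to `X`, the subgraph of `G` induced on `X` has at
most `C` connected components, any two vertices of the same component of this subgraph are at a distance of at most `C` in it,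
and every vertex of `X` has at least `c n / (log n) ^ 2` neighbours in `X`. -/
def Bounded {V : Type} (G : SimpleGraph V) (X : Set V) (C : ℕ) (c : ℝ) (U n : ℕ) : Prop :=
  (Xᶜ.ncard : ℝ) ≤ n / Real.log n ^ U ∧
    Nat.card (G.induce X).ConnectedComponent ≤ C ∧
    (∀ u v : X, (G.induce X).Reachable u v → (G.induce X).dist u v ≤ C) ∧
    ∀ u : X, c * (n / Real.log n ^ 2) ≤ (((G.induce X).neighborSet u).ncard : ℝ)

/-- `a` is a vertex of the Goldbach graph outside `X` or a vertex of the near Goldbach graph outside `Y`. -/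
def Outside (n : ℕ) (X : Set {a : ℕ // Even a ∧ a ≤ 2 * n}) (Y : Set {a : ℕ // Even a ∧ 2 ≤ a ∧ a ≤ 2 * n}) (a : ℕ) : Prop :=
  (∃ h : Even a ∧ a ≤ 2 * n, (⟨a, h⟩ : {a : ℕ // Even a ∧ a ≤ 2 * n}) ∉ X) ∨
    ∃ h : Even a ∧ 2 ≤ a ∧ a ≤ 2 * n, (⟨a, h⟩ : {a : ℕ // Even a ∧ 2 ≤ a ∧ a ≤ 2 * n}) ∉ Y

/-- The sequence: `S α β γ m = ⌊exp (α (log m) ^ γ + β)⌋`. -/
noncomputable def S (α β γ : ℝ) (m : ℕ) : ℕ := ⌊Real.exp (α * Real.log m ^ γ + β)⌋₊

open Classical in
/-- There are absolute constants `C` and `c > 0` such that for every `U` there are sets `X n` of vertices of the finite Goldbach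
graph `G_n` and `Y n` of vertices of the finite near Goldbach graph `G(n)` with the following properties.

(0) For all large `n`, all but at most `n / log ^ U n` vertices belong to `X n`, the subgraph induced on `X n` has at most `C`
components, all of diameter at most `C`, and all its degrees are at least `c n / log ^ 2 n`; and the same for `Y n`.

(1) Let `α > 0`, `β`, `1 < γ < 3/2`, and let `S(m) = ⌊exp (α (log m) ^ γ + β)⌋`, a sequence which grows faster than any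
power of `m` (it has only `x ^ o(1)` members up to `x`). Let the integer `μ ≠ 0`, `A`, `B`, `D`, `W` and `r` be fixed, let `y` be
large, let `y / (log y) ^ r ≤ h ≤ y / log y`, and let `n` be of the size of `S(y)`: `S(y) ≤ 2 n ≤ D S(y)`. Let `|c₀| ≤ B n`. Then
all the integers `m` in `(y - h, y]`, with at most `h / (log y) ^ W` exceptions, are such that ALL the vertices `a` with
`|a - (c₀ + μ S(m))| ≤ (log y) ^ A` belong to `X n` and to `Y n`. -/
theorem result : ∃ (C : ℕ) (c : ℝ), 0 < c ∧ ∀ U : ℕ, ∃ (X : ∀ n : ℕ, Set {a : ℕ // Even a ∧ a ≤ 2 * n})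
    (Y : ∀ n : ℕ, Set {a : ℕ // Even a ∧ 2 ≤ a ∧ a ≤ 2 * n}),
    (∃ n₀ : ℕ, ∀ n : ℕ, n₀ ≤ n → Bounded (goldbach n) (X n) C c U n ∧ Bounded (nearGoldbach n) (Y n) C c U n) ∧
    ∀ α β γ : ℝ, 0 < α → 1 < γ → γ < 3 / 2 → ∀ (μ : ℤ), μ ≠ 0 → ∀ (A B D W r : ℕ),
      ∀ᶠ y : ℕ in atTop, ∀ h : ℕ, (y : ℝ) / Real.log y ^ r ≤ h → (h : ℝ) ≤ y / Real.log y →
      ∀ n : ℕ, S α β γ y ≤ 2 * n → 2 * n ≤ D * S α β γ y → ∀ c₀ : ℤ, |c₀| ≤ B * n →
        (((Ioc (y - h) y).filter fun m : ℕ => ∃ a : ℕ, |(a : ℝ) - (c₀ + μ * (S α β γ m : ℕ))| ≤ Real.log y ^ A ∧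
          Outside n (X n) (Y n) a).card : ℝ) ≤ h / Real.log y ^ W := by
  obtain ⟨C, c, hc, hall⟩ := Pool.Agent.Results.MP_443e5f_co.AlmostAllVertices.result
  obtain ⟨c₁, hc₁, n₁, hdeg⟩ := Pool.Agent.N469.GG.deg_low
  refine ⟨C * (C + 3) + C, min c (c₁ / 2), lt_min hc (by positivity), fun U => ?_⟩
  obtain ⟨n₂, h2⟩ := hall (U + 3)
  obtain ⟨n₃, h3⟩ := Pool.Agent.H373R2.T7.ev_L' (2 / c₁ + 1)
  have hex : ∀ n : ℕ, ∃ (X : Set {a : ℕ // Even a ∧ a ≤ 2 * n}) (Y : Set {a : ℕ // Even a ∧ 2 ≤ a ∧ a ≤ 2 * n}),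
      n₁ + n₂ + n₃ + 2 ≤ n → (Bounded (goldbach n) X (C * (C + 3) + C) (min c (c₁ / 2)) U n ∧
        Bounded (nearGoldbach n) Y (C * (C + 3) + C) (min c (c₁ / 2)) U n) ∧
        (∀ a, c₁ * (n / Real.log n ^ 2) ≤ (((goldbach n).neighborSet a).ncard : ℝ) → a ∈ X) ∧
        (∀ a, c₁ * (n / Real.log n ^ 2) ≤ (((nearGoldbach n).neighborSet a).ncard : ℝ) → a ∈ Y) := by
    intro n
    by_cases hn : n₁ + n₂ + n₃ + 2 ≤ n
    · obtain ⟨q1, q2⟩ := h2 n (by omega)
      have a3 := h3 n (by omega)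
      have hn0 : (0 : ℝ) < n := by exact_mod_cast (by omega : 0 < n)
      have hL1 : 1 ≤ Real.log (n : ℝ) := by
        have : 0 < 2 / c₁ := by positivity
        linarith
      have hL0 : 0 < Real.log (n : ℝ) := by linarith
      have hpos : 0 < (n : ℝ) / Real.log n ^ 2 := by positivity
      have hlarge : (n : ℝ) / Real.log n ^ (U + 3) ≤ c₁ / 2 * (n / Real.log n ^ 2) := by
        have e1 : (n : ℝ) / Real.log n ^ (U + 3) = (1 / Real.log n ^ (U + 1)) * (n / Real.log n ^ 2) := by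
          rw [show U + 3 = (U + 1) + 2 by ring, pow_add _ (U + 1) 2]
          field_simp
        rw [e1]
        apply mul_le_mul_of_nonneg_right _ hpos.le
        rw [div_le_iff₀ (by positivity)]
        have e2 : Real.log (n : ℝ) ≤ Real.log n ^ (U + 1) := le_self_pow₀ hL1 (by omega)
        have e3 : 2 / c₁ ≤ Real.log (n : ℝ) := by linarith
        rw [div_le_iff₀ hc₁] at e3
        nlinarith
      obtain ⟨X, ⟨x1, x2, x3, x4⟩, x5⟩ := Pool.Agent.N469.GG.absorb (goldbach n) C c c₁ (U + 3) n q1 hc₁ hpos hlarge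
      obtain ⟨Y, ⟨y1, y2, y3, y4⟩, y5⟩ := Pool.Agent.N469.GG.absorb (nearGoldbach n) C c c₁ (U + 3) n q2 hc₁ hpos hlarge
      have hU : (n : ℝ) / Real.log n ^ (U + 3) ≤ n / Real.log n ^ U :=
        div_le_div_of_nonneg_left hn0.le (by positivity) (pow_le_pow_right₀ hL1 (by omega))
      exact ⟨X, Y, fun _ => ⟨⟨⟨x1.trans hU, x2, x3, x4⟩, ⟨y1.trans hU, y2, y3, y4⟩⟩, x5, y5⟩⟩
    · exact ⟨Set.univ, Set.univ, fun h => absurd h hn⟩
  choose X Y hXY using hex
  refine ⟨X, Y, ⟨n₁ + n₂ + n₃ + 2, fun n hn => (hXY n hn).1⟩, fun α β γ hα hγ1 hγ2 μ hμ A B D W r => ?_⟩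
  obtain ⟨ζ, σ, hζ, hζ1, hσ, hlaw⟩ := Pool.Agent.U710.LE.ef_law α β γ hα hγ1 hγ2 r
  have hcl := Pool.Agent.U710.LE.clsV ζ hζ hζ1 (r + 4) σ hσ μ hμ
  obtain ⟨k1, hk1⟩ := Pool.Agent.U710.LE.lc_pair ζ hζ hζ1 (r + 4) σ hσ μ hμ (3 * B) 1 A (W + 1) (1 / 2) (by norm_num)
  obtain ⟨k2, hk2⟩ := Pool.Agent.N625.DY.cls_gold hcl.toCls (B * D) 1 A (W + 1) 0 (1 / 2) (by norm_num)
    (fun m => Pool.Agent.W93.PG.WinP (1 / 2) 1 m) (fun m _ _ h => h)
    (fun m => 0 < m → Even m → Pool.Agent.W93.PG.WinP (1 / 2) 1 m.toNat) (fun m hm => by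
      push Not at hm
      exact hm)
  obtain ⟨y0, hy0⟩ := hlaw (k1 + k2 + D + 4 * (n₁ + n₂ + n₃ + 4) + 3)
  obtain ⟨y2, hy2⟩ := eventually_atTop.1
    ((Real.tendsto_log_atTop.comp (tendsto_natCast_atTop_atTop (R := ℝ))).eventually (eventually_ge_atTop (2 : ℝ)))
  filter_upwards [eventually_ge_atTop (y0 + y2 + 2)] with y hy h hh1 hh2 n hn1 hn2 c₀ hc₀
  have b1 := hy2 y (by omega)
  simp only [Function.comp_apply] at b1
  obtain ⟨d1, d2, d3, d4, d5, d6⟩ := hy0 y h (by omega) hh1 hh2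
  have hSdef : ∀ m : ℕ, S α β γ m = ⌊Pool.Agent.U710.LE.ef α β γ m⌋₊ := fun m => rfl
  simp only [hSdef] at hn1 hn2 ⊢
  obtain ⟨N, hN⟩ : ∃ N, N = ⌊Pool.Agent.U710.LE.ef α β γ y⌋₊ := ⟨_, rfl⟩
  rw [← hN] at hn1 hn2 d3 d4 d5 d6
  obtain ⟨k, hk⟩ : ∃ k, k = Pool.Agent.U710.LE.dg N := ⟨_, rfl⟩
  rw [← hk] at d4 d5 d6
  have hNk : N < 2 ^ k := by rw [hk]; exact Pool.Agent.U710.LE.lt_dg N
  have hkN : 2 ^ k ≤ 2 * N := by rw [hk]; exact Pool.Agent.U710.LE.dg_le N (by omega)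
  have hkk : k < 2 ^ k := Nat.lt_two_pow_self
  have hnbig : n₁ + n₂ + n₃ + 4 ≤ n := by omega
  obtain ⟨-, hX, hY⟩ := hXY n (by omega)
  obtain ⟨g0, g1, g2⟩ := hdeg n (by omega)
  have hL0 : 0 < Real.log (y : ℝ) := by linarith
  have hk0 : (0 : ℝ) < k := by exact_mod_cast (by omega : 0 < k)
  obtain ⟨j, hj⟩ : ∃ j, 2 ^ k = 8 * j := ⟨2 ^ (k - 3), by
    rw [show (8 : ℕ) = 2 ^ 3 by norm_num, ← pow_add]
    congr 1
    omega⟩
  have hM1 : 2 ^ k ≤ 8 * (n / 2) := by omega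
  have hM2 : n / 2 ≤ 2 ^ k * k ^ 1 := by
    rw [pow_one]
    have e1 : 2 * n ≤ k * 2 ^ k := hn2.trans (Nat.mul_le_mul (by omega) hNk.le)
    have e2 : n / 2 ≤ n := Nat.div_le_self n 2
    rw [mul_comm]
    omega
  have hcM : |c₀| ≤ ((3 * B : ℕ) : ℤ) * ((n / 2 : ℕ) : ℤ) := by
    refine hc₀.trans ?_
    have : (n : ℤ) ≤ 3 * ((n / 2 : ℕ) : ℤ) := by omega
    push_cast at this ⊢
    nlinarith [Int.natCast_nonneg B]
  have hc2 : |c₀| ≤ ((B * D : ℕ) : ℤ) * (2 : ℤ) ^ k := by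
    refine hc₀.trans ?_
    have e1 : n ≤ D * 2 ^ k := by
      have := hn2.trans (Nat.mul_le_mul_left D hNk.le)
      omega
    have e2 : (n : ℤ) ≤ D * (2 : ℤ) ^ k := by exact_mod_cast e1
    push_cast
    nlinarith [Int.natCast_nonneg B]
  have u1 := d6 (fun v => ∀ y : ℤ, |y - (c₀ + μ * (v : ℕ))| ≤ (k : ℤ) ^ A → 0 < y →
      Pool.Agent.W93.TD.HLs (1 / 2) (W + 1 + A + 1) (n / 2) (fun _ : Fin 1 => y.toNat)) (1 / (k : ℝ) ^ (W + 1))
    (fun p hp => hk1 k (by omega) p hp (n / 2) hM1 hM2 c₀ hcM)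
  have u2 := d6 (fun v => ∀ y : ℤ, |y - (c₀ + μ * (v : ℕ))| ≤ (k : ℤ) ^ A → (0 < y → Even y →
      Pool.Agent.W93.PG.WinP (1 / 2) 1 y.toNat)) (1 / (k : ℝ) ^ (W + 1))
    (fun p hp => hk2 k (by omega) p hp c₀ hc2)
  refine le_trans (b := ((h : ℝ) * (1 / (k : ℝ) ^ (W + 1)) + h * (1 / (k : ℝ) ^ (W + 1)) : ℝ)) ?_ ?_
  · refine le_trans ?_ (add_le_add u1 u2)
    rw [← Nat.cast_add]
    apply Nat.cast_le.2
    refine le_trans (card_le_card ?_) (card_union_le _ _)
    intro m hm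
    rw [mem_filter] at hm
    obtain ⟨hm1, a, ha1, ha2⟩ := hm
    rw [mem_union, mem_filter, mem_filter]
    -- the vertex `a` has a small degree
    have hsmall : Even a ∧ a ≤ 2 * n ∧ ((Pool.Agent.N469.GG.Nb n a).card : ℝ) < c₁ * (n / Real.log n ^ 2) := by
      rcases ha2 with ⟨h, ha⟩ | ⟨h, ha⟩
      · refine ⟨h.1, h.2, ?_⟩
        by_contra hcon
        push Not at hcon
        refine ha (hX _ (hcon.trans ?_))
        exact_mod_cast Pool.Agent.N469.GG.nb_gold n a h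
      · refine ⟨h.1, h.2.2, ?_⟩
        by_contra hcon
        push Not at hcon
        refine ha (hY _ (hcon.trans ?_))
        exact_mod_cast Pool.Agent.N469.GG.nb_near n a h
    obtain ⟨hev, hle, hlt⟩ := hsmall
    have hdist : |(a : ℤ) - (c₀ + μ * (⌊Pool.Agent.U710.LE.ef α β γ m⌋₊ : ℕ))| ≤ (k : ℤ) ^ A := by
      have e1 : |(a : ℝ) - (c₀ + μ * (⌊Pool.Agent.U710.LE.ef α β γ m⌋₊ : ℕ))| ≤ (k : ℝ) ^ A :=
        ha1.trans (pow_le_pow_left₀ hL0.le d5 A)
      have e2 : ((|(a : ℤ) - (c₀ + μ * (⌊Pool.Agent.U710.LE.ef α β γ m⌋₊ : ℕ))| : ℤ) : ℝ) ≤ (((k : ℤ) ^ A : ℤ) : ℝ) := by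
        push_cast
        exact e1
      exact_mod_cast e2
    rcases Nat.eq_zero_or_pos a with h0 | h0
    · exfalso
      rw [h0] at hlt
      linarith
    rcases le_or_gt a n with h5 | h5
    · left
      refine ⟨hm1, fun hcon => ?_⟩
      have h6 := hcon (a : ℤ) hdist (by exact_mod_cast h0)
      rw [Int.toNat_natCast] at h6
      obtain ⟨i, hi⟩ := hev
      have := g1 _ a ⟨i, hi⟩ (by omega) h5 h6
      linarith
    · right
      refine ⟨hm1, fun hcon => ?_⟩
      have h6 := hcon (a : ℤ) hdist (by exact_mod_cast h0) (by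
        obtain ⟨i, hi⟩ := hev
        exact ⟨i, by exact_mod_cast hi⟩)
      rw [Int.toNat_natCast] at h6
      have := g2 a hev h5 hle h6
      linarith
  · have f1 : Real.log (y : ℝ) ^ (W + 1) ≤ (k : ℝ) ^ (W + 1) := pow_le_pow_left₀ hL0.le d5 _
    have f2 : 1 / (k : ℝ) ^ (W + 1) ≤ 1 / Real.log (y : ℝ) ^ (W + 1) := one_div_le_one_div_of_le (by positivity) f1
    have f3 : (2 : ℝ) * (1 / Real.log (y : ℝ) ^ (W + 1)) ≤ 1 / Real.log (y : ℝ) ^ W := by
      rw [pow_succ, mul_one_div, div_le_div_iff₀ (by positivity) (by positivity)]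
      have : 0 < Real.log (y : ℝ) ^ W := by positivity
      nlinarith
    have hh0 : (0 : ℝ) ≤ h := Nat.cast_nonneg _
    calc (h : ℝ) * (1 / (k : ℝ) ^ (W + 1)) + h * (1 / (k : ℝ) ^ (W + 1)) = h * (2 * (1 / (k : ℝ) ^ (W + 1))) := by ring
      _ ≤ h * (1 / Real.log (y : ℝ) ^ W) := by
          apply mul_le_mul_of_nonneg_left _ hh0
          linarith
      _ = h / Real.log y ^ W := by ring

end Pool.Agent.Results.MP_443e5f_co.SubexponentialVertices
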