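import Pool.Agent.U847.WT
import Pool.Agent.U847.VT

/-!
# Goldbach graphs: the vertices which are multiples of integers whose digits label walks belong to the bounded part

The subsets `X n` and `Y n` of the vertices of the finite Goldbach graph and of the finite near Goldbach graph contain all but
`n / log ^ U n` vertices and induce subgraphs with boundedly many components of bounded diameters. All the vertices `h q`, where
`q` is near `c + κ v`, belong to `X n` and to `Y n`, for almost all the integers `v` whose `k` digits are the labels of the walks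
between two vertices of a graph, for example of the Cayley graph of a group: then these are the integers whose digits spell a
given element of the group. Such a set can contain as few as `N ^ ε` integers below `N`, and in general it is not automatic.

`goldbach n` and `nearGoldbach n` are the graphs of the problem (starting file `AlmostAllVertices` of this problem).

Method: the exponential sum over the walks is dominated by the iterates of the adjacency operator of the graph, which
loses a constant factor at every digit where the frequency is not extremal (starting files, `Pool.Agent.N625.GW`). New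
here: a frequency `θ` at which the exponential sum over the multiples `h v` is large differs little from a fraction with a
small denominator except at `O(log k)` of the digits, for all `h ≤ k ^ J` (`Pool.Agent.U847.TG`, `Pool.Agent.U847.TI`), and
the prime pairs whose difference is such a multiple, at all the scales comparable with the multiple (`Pool.Agent.U847.PV`,
`Pool.Agent.U847.VT`). From the starting files: the graph `X n` for almost all vertices (`AlmostAllVertices`), the vertices of
large degree can be added to it (`Pool.Agent.N469.GG`), the circle method (`Pool.Agent.Y885.tl_tuples`,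
`Pool.Agent.N625.PT.t_windows`).
-/

set_option autoImplicit false

namespace Pool.Agent.Results.MP_443e5f_co.WalkVertices

open Finset
open Pool.Agent.Results.MP_443e5f_co.AlmostAllVertices (goldbach nearGoldbach)

/-- All the vertices of `G` with at most `n / (log n) ^ U` exceptions belong to `X`, the subgraph of `G` induced on `X` has at
most `C` connected components, any two vertices of the same component of this subgraph are at a distance of at most `C` in it,
and every vertex of `X` has at least `c n / (log n) ^ 2` neighbours in `X`. -/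
def Bounded {V : Type} (G : SimpleGraph V) (X : Set V) (C : ℕ) (c : ℝ) (U n : ℕ) : Prop :=
  (Xᶜ.ncard : ℝ) ≤ n / Real.log n ^ U ∧
    Nat.card (G.induce X).ConnectedComponent ≤ C ∧
    (∀ u v : X, (G.induce X).Reachable u v → (G.induce X).dist u v ≤ C) ∧
    ∀ u : X, c * (n / Real.log n ^ 2) ≤ (((G.induce X).neighborSet u).ncard : ℝ)

/-- `a` is a vertex of the Goldbach graph outside `X` or a vertex of the near Goldbach graph outside `Y`. -/
def Outside (n : ℕ) (X : Set {a : ℕ // Even a ∧ a ≤ 2 * n}) (Y : Set {a : ℕ // Even a ∧ 2 ≤ a ∧ a ≤ 2 * n}) (a : ℕ) : Prop :=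
  (∃ h : Even a ∧ a ≤ 2 * n, (⟨a, h⟩ : {a : ℕ // Even a ∧ a ≤ 2 * n}) ∉ X) ∨
    ∃ h : Even a ∧ 2 ≤ a ∧ a ≤ 2 * n, (⟨a, h⟩ : {a : ℕ // Even a ∧ 2 ≤ a ∧ a ≤ 2 * n}) ∉ Y

/-- The digits `a < b` act on the set `X` of the vertices: an edge with the label `a` leads from `x` to `y` if
`δ x a = some y` (at most one edge with the label `a` starts at `x`). The number of the edges from `x` to `y` equals the
number of the edges from `y` to `x`, and at least two edges start at every vertex. The graph may be infinite. -/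
structure Graph {X : Type} (b : ℕ) (δ : X → ℕ → Option X) : Prop where
  symm : ∀ x y : X, {a : ℕ | a < b ∧ δ x a = some y}.ncard = {a : ℕ | a < b ∧ δ y a = some x}.ncard
  two : ∀ x : X, ∃ a a' : ℕ, a < a' ∧ a' < b ∧ (δ x a).isSome ∧ (δ x a').isSome

open Classical in
/-- The integers `v < b ^ k` whose `k` digits in base `b`, from the most significant to the least significant one (the
digit number `i`, `0 ≤ i < k`, from the left is `v / b ^ (k - 1 - i) % b`), are the labels of a walk from `x` to `y`. -/
noncomputable def walks {X : Type} (b : ℕ) (δ : X → ℕ → Option X) (k : ℕ) (x y : X) : Finset ℕ :=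
  (range (b ^ k)).filter fun v =>
    ((List.range k).map fun i => v / b ^ (k - 1 - i) % b).foldl (fun s a => s.bind fun z => δ z a) (some x) = some y

open Classical in
/-- **Walk vertices of the Goldbach graphs.** There are absolute constants `C` and `c > 0` such that for every `U` there are
sets `X n` of vertices of the finite Goldbach graph `G_n` and `Y n` of vertices of the finite near Goldbach graph `G(n)` with
the following properties.

(0) For all large `n`, all but at most `n / log ^ U n` vertices belong to `X n`, the subgraph induced on `X n` has at most `C`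
components, all of diameter at most `C`, and all its degrees are at least `c n / log ^ 2 n`; and the same for `Y n`.

(1) Let `δ` be a graph (infinite or not) whose edges are labelled with the digits in base `b`, let `x` be a vertex and let
`ρ > 0` be such that there are at most `ρ ^ (2 n)` closed walks of the length `2 n` at `x`, for all `n`. Let `κ ≠ 0`, `D`, `B`,
`J`, `J₂`, `M`, `W` and `T` be fixed and let `k` be large. Let `y` be a vertex such that the number of the walks of the length
`k` from `x` to `y` is at least `ρ ^ k / k ^ D`, let `c₀` be an integer with `|c₀| ≤ B b ^ k` and let `n` be an integer with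
`b ^ k / M ≤ n ≤ k ^ J₂ b ^ k`. Then for all the integers `v` whose `k` digits in base `b` are the labels of a walk from `x` to
`y`, with the exception of a proportion of at most `1 / k ^ T` of them, ALL the vertices `a = h q` with
`|q - (c₀ + κ v)| ≤ k ^ W`, `1 ≤ h ≤ k ^ J` and `h b ^ k ≤ M n` belong to `X n` and to `Y n`.

(For a group of polynomial growth, a free group, or any group with the property of rapid decay, there are at least
`ρ ^ k / k ^ D` closed walks of every even length `k` in the Cayley graph, where `ρ` is its spectral radius.) -/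
theorem result : ∃ (C : ℕ) (c : ℝ), 0 < c ∧ ∀ U : ℕ, ∃ (X : ∀ n : ℕ, Set {a : ℕ // Even a ∧ a ≤ 2 * n})
    (Y : ∀ n : ℕ, Set {a : ℕ // Even a ∧ 2 ≤ a ∧ a ≤ 2 * n}),
    (∃ n₀ : ℕ, ∀ n : ℕ, n₀ ≤ n → Bounded (goldbach n) (X n) C c U n ∧ Bounded (nearGoldbach n) (Y n) C c U n) ∧
    ∀ (V : Type) (b : ℕ) (δ : V → ℕ → Option V), Graph b δ → ∀ (x : V) (ρ : ℝ), 0 < ρ →
      (∀ n : ℕ, ((walks b δ (2 * n) x x).card : ℝ) ≤ ρ ^ (2 * n)) → ∀ κ : ℤ, κ ≠ 0 → ∀ D B J J₂ M W T : ℕ,
      ∃ k₀ : ℕ, ∀ k : ℕ, k₀ ≤ k → ∀ y : V, ρ ^ k / (k : ℝ) ^ D ≤ (walks b δ k x y).card →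
      ∀ c₀ : ℤ, |c₀| ≤ B * (b : ℤ) ^ k → ∀ n : ℕ, b ^ k ≤ M * n → n ≤ k ^ J₂ * b ^ k →
      (((walks b δ k x y).filter fun v : ℕ => ∃ (q : ℤ) (h a : ℕ), |q - (c₀ + κ * v)| ≤ (k : ℤ) ^ W ∧ 1 ≤ h ∧ h ≤ k ^ J ∧
        h * b ^ k ≤ M * n ∧ (a : ℤ) = h * q ∧ Outside n (X n) (Y n) a).card : ℝ) ≤ (walks b δ k x y).card / (k : ℝ) ^ T := by
  obtain ⟨C, c, hc, hall⟩ := Pool.Agent.Results.MP_443e5f_co.AlmostAllVertices.result
  obtain ⟨c₁, hc₁, n₁, hdeg⟩ := Pool.Agent.N469.GG.deg_low
  refine ⟨C * (C + 3) + C, min c (c₁ / 2), lt_min hc (by positivity), fun U => ?_⟩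
  obtain ⟨n₂, h2⟩ := hall (U + 3)
  obtain ⟨n₃, h3⟩ := Pool.Agent.H373R2.T7.ev_L' (2 / c₁ + 1)
  have hex : ∀ n : ℕ, ∃ (X : Set {a : ℕ // Even a ∧ a ≤ 2 * n}) (Y : Set {a : ℕ // Even a ∧ 2 ≤ a ∧ a ≤ 2 * n}),
      n₁ + n₂ + n₃ + 2 ≤ n → (Bounded (goldbach n) X (C * (C + 3) + C) (min c (c₁ / 2)) U n ∧
        Bounded (nearGoldbach n) Y (C * (C + 3) + C) (min c (c₁ / 2)) U n) ∧
        (∀ a, c₁ * (n / Real.log n ^ 2) ≤ (((goldbach n).neighborSet a).ncard : ℝ) → a ∈ X) ∧
        (∀ a, c₁ * (n / Real.log n ^ 2) ≤ (((nearGoldbach n).neighborSet a).ncard : ℝ) → a ∈ Y) := by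
    intro n
    by_cases hn : n₁ + n₂ + n₃ + 2 ≤ n
    · obtain ⟨q1, q2⟩ := h2 n (by omega)
      have a3 := h3 n (by omega)
      have hn0 : (0 : ℝ) < n := by exact_mod_cast (by omega : 0 < n)
      have hL1 : 1 ≤ Real.log (n : ℝ) := by
        have : 0 < 2 / c₁ := by positivity
        linarith
      have hL0 : 0 < Real.log (n : ℝ) := by linarith
      have hpos : 0 < (n : ℝ) / Real.log n ^ 2 := by positivity
      have hlarge : (n : ℝ) / Real.log n ^ (U + 3) ≤ c₁ / 2 * (n / Real.log n ^ 2) := by
        have e1 : (n : ℝ) / Real.log n ^ (U + 3) = (1 / Real.log n ^ (U + 1)) * (n / Real.log n ^ 2) := by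
          rw [show U + 3 = (U + 1) + 2 by ring, pow_add _ (U + 1) 2]
          field_simp
        rw [e1]
        apply mul_le_mul_of_nonneg_right _ hpos.le
        rw [div_le_iff₀ (by positivity)]
        have e2 : Real.log (n : ℝ) ≤ Real.log n ^ (U + 1) := le_self_pow₀ hL1 (by omega)
        have e3 : 2 / c₁ ≤ Real.log (n : ℝ) := by linarith
        rw [div_le_iff₀ hc₁] at e3
        nlinarith
      obtain ⟨X, ⟨x1, x2, x3, x4⟩, x5⟩ := Pool.Agent.N469.GG.absorb (goldbach n) C c c₁ (U + 3) n q1 hc₁ hpos hlarge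
      obtain ⟨Y, ⟨y1, y2, y3, y4⟩, y5⟩ := Pool.Agent.N469.GG.absorb (nearGoldbach n) C c c₁ (U + 3) n q2 hc₁ hpos hlarge
      have hU : (n : ℝ) / Real.log n ^ (U + 3) ≤ n / Real.log n ^ U :=
        div_le_div_of_nonneg_left hn0.le (by positivity) (pow_le_pow_right₀ hL1 (by omega))
      exact ⟨X, Y, fun _ => ⟨⟨⟨x1.trans hU, x2, x3, x4⟩, ⟨y1.trans hU, y2, y3, y4⟩⟩, x5, y5⟩⟩
    · exact ⟨Set.univ, Set.univ, fun h => absurd h hn⟩
  choose X Y hXY using hex
  refine ⟨X, Y, ⟨n₁ + n₂ + n₃ + 2, fun n hn => (hXY n hn).1⟩, ?_⟩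
  intro V b δ hG x ρ hρ hR κ hκ D B J J₂ M W T
  obtain ⟨k₀, hmain⟩ := Pool.Agent.U847.VT.t_vert
    (Pool.Agent.U847.TI.w_tcls (b := b) (δ := δ) ⟨hG.symm, hG.two⟩ x ρ hρ hR D κ hκ) B J J₂ M W T c₁ hc₁ n₁ hdeg
  have hb : 2 ≤ b := (Pool.Agent.U847.TI.w_tcls (b := b) (δ := δ) ⟨hG.symm, hG.two⟩ x ρ hρ hR D κ hκ).two
  refine ⟨k₀ + M * (n₁ + n₂ + n₃ + 2) + 1, fun k hk y hy c₀ hc₀ n hn1 hn2 => ?_⟩
  have hnn : n₁ + n₂ + n₃ + 2 ≤ n := by
    by_contra hcon
    push Not at hcon
    have h4 : M * n ≤ M * (n₁ + n₂ + n₃ + 2) := Nat.mul_le_mul_left _ hcon.le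
    have h5 : k < b ^ k := Nat.lt_pow_self (by omega)
    omega
  obtain ⟨-, hX, hY⟩ := hXY n hnn
  have key := Pool.Agent.U847.WT.w_num hρ (U := T) (by omega) hy (fun v : ℕ => ¬ ∃ (q : ℤ) (h a : ℕ), |q - (c₀ + κ * v)| ≤ (k : ℤ) ^ W ∧
    1 ≤ h ∧ h ≤ k ^ J ∧ h * b ^ k ≤ M * n ∧ (a : ℤ) = h * q ∧ Outside n (X n) (Y n) a) (fun p hp => by
      refine hmain k (by omega) p hp c₀ hc₀ n hn1 hn2 _ ?_
      intro v hv
      rw [not_not] at hv
      obtain ⟨q, h, a, hq, hh1, hh2, hh3, hae, hout⟩ := hv
      refine ⟨h, hh1, hh2, hh3, q, a, hq, hae, ?_⟩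
      rcases hout with ⟨h, ha⟩ | ⟨h, ha⟩
      · refine ⟨h.1, h.2, ?_⟩
        by_contra hcon
        push Not at hcon
        refine ha (hX _ (hcon.trans ?_))
        exact_mod_cast Pool.Agent.N469.GG.nb_gold n a h
      · refine ⟨h.1, h.2.2, ?_⟩
        by_contra hcon
        push Not at hcon
        refine ha (hY _ (hcon.trans ?_))
        exact_mod_cast Pool.Agent.N469.GG.nb_near n a h)
  simp only [not_not] at key
  exact key

end Pool.Agent.Results.MP_443e5f_co.WalkVertices
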